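import Pool.Agent.W475.BG.Stm

set_option autoImplicit false

/-!
Task LOWS of project BG: the lower bound through the local Dirichlet series
(adapted from `Pool.Agent.W180.BH.Lows`).
-/

namespace Pool.Agent.W334.BG

open Complex MeasureTheory Filter Topology
open Pool.Agent.W475.BG

/-! ## summability of the coefficients -/

lemma sq_block {D : Dat} {C : ℝ}
    (hC : ∀ x h : ℝ, 2 ≤ x → x / Real.log x ^ 3 ≤ h → h ≤ x →
      ∑ n ∈ Finset.Ioc ⌊x⌋₊ ⌊x + h⌋₊, ‖D.a n‖ ^ 2 ≤ C * h) (k : ℕ) (hk : 2 ≤ k) :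
    ∑ n ∈ Finset.Ioc (2 ^ k) (2 ^ (k + 1)), ‖D.a n‖ ^ 2 * (n : ℝ) ^ (-(11 / 10) : ℝ) ≤
      C * ((2 : ℝ) ^ (-(1 / 10) : ℝ)) ^ k := by
  have hx4 : (4 : ℝ) ≤ (2 : ℝ) ^ k := by
    calc (4 : ℝ) = 2 ^ 2 := by norm_num
      _ ≤ 2 ^ k := pow_le_pow_right₀ (by norm_num) hk
  have hx0 : (0 : ℝ) < (2 : ℝ) ^ k := by positivity
  have hlog : 1 ≤ Real.log ((2 : ℝ) ^ k) := by
    rw [Real.le_log_iff_exp_le hx0]
    have := Real.exp_one_lt_d9
    linarith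
  have h1 := hC ((2 : ℝ) ^ k) ((2 : ℝ) ^ k) (by linarith)
    (div_le_self hx0.le (one_le_pow₀ hlog)) le_rfl
  have h2 : (2 : ℝ) ^ k + (2 : ℝ) ^ k = ((2 ^ (k + 1) : ℕ) : ℝ) := by push_cast; ring
  have h3 : (2 : ℝ) ^ k = ((2 ^ k : ℕ) : ℝ) := by push_cast; ring
  rw [h2, Nat.floor_natCast, h3, Nat.floor_natCast] at h1
  have h4 : ∀ n ∈ Finset.Ioc (2 ^ k) (2 ^ (k + 1)), ‖D.a n‖ ^ 2 * (n : ℝ) ^ (-(11 / 10) : ℝ) ≤
      ‖D.a n‖ ^ 2 * (((2 ^ k : ℕ) : ℝ) ^ (-(11 / 10) : ℝ)) := by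
    intro n hn
    refine mul_le_mul_of_nonneg_left ?_ (by positivity)
    refine Real.rpow_le_rpow_of_nonpos (by positivity) ?_ (by norm_num)
    exact_mod_cast (Finset.mem_Ioc.1 hn).1.le
  refine (Finset.sum_le_sum h4).trans ?_
  rw [← Finset.sum_mul]
  refine (mul_le_mul_of_nonneg_right h1 (by positivity)).trans ?_
  rw [mul_assoc]
  have h5 : ((2 ^ k : ℕ) : ℝ) * ((2 ^ k : ℕ) : ℝ) ^ (-(11 / 10) : ℝ) =
      ((2 : ℝ) ^ (-(1 / 10) : ℝ)) ^ k := by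
    have h6 : (0 : ℝ) < ((2 ^ k : ℕ) : ℝ) := by positivity
    have h7 : ((2 ^ k : ℕ) : ℝ) * ((2 ^ k : ℕ) : ℝ) ^ (-(11 / 10) : ℝ) =
        ((2 ^ k : ℕ) : ℝ) ^ (-(1 / 10) : ℝ) := by
      nth_rewrite 1 [← Real.rpow_one ((2 ^ k : ℕ) : ℝ)]
      rw [← Real.rpow_add h6]
      norm_num
    rw [h7]
    push_cast
    rw [← Real.rpow_natCast, ← Real.rpow_natCast, ← Real.rpow_mul (by norm_num),
      ← Real.rpow_mul (by norm_num), mul_comm]
  rw [h5]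

lemma sq_partial {D : Dat} {C : ℝ} (hC0 : 0 < C)
    (hC : ∀ x h : ℝ, 2 ≤ x → x / Real.log x ^ 3 ≤ h → h ≤ x →
      ∑ n ∈ Finset.Ioc ⌊x⌋₊ ⌊x + h⌋₊, ‖D.a n‖ ^ 2 ≤ C * h) (k : ℕ) :
    ∑ n ∈ Finset.Ioc 0 (2 ^ (k + 2)), ‖D.a n‖ ^ 2 * (n : ℝ) ^ (-(11 / 10) : ℝ) ≤
      ∑ n ∈ Finset.Ioc 0 4, ‖D.a n‖ ^ 2 * (n : ℝ) ^ (-(11 / 10) : ℝ) +
        C * ∑ j ∈ Finset.range k, ((2 : ℝ) ^ (-(1 / 10) : ℝ)) ^ j := by
  have hr0 : 0 ≤ (2 : ℝ) ^ (-(1 / 10) : ℝ) := by positivity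
  have hr1 : (2 : ℝ) ^ (-(1 / 10) : ℝ) ≤ 1 :=
    Real.rpow_le_one_of_one_le_of_nonpos (by norm_num) (by norm_num)
  induction k with
  | zero => simp
  | succ k ih =>
    have h1 : Finset.Ioc 0 (2 ^ (k + 1 + 2)) =
        Finset.Ioc 0 (2 ^ (k + 2)) ∪ Finset.Ioc (2 ^ (k + 2)) (2 ^ (k + 2 + 1)) := by
      rw [Finset.Ioc_union_Ioc_eq_Ioc (Nat.zero_le _)
        (Nat.pow_le_pow_right (by norm_num) (by omega))]
    have h2 : Disjoint (Finset.Ioc 0 (2 ^ (k + 2))) (Finset.Ioc (2 ^ (k + 2)) (2 ^ (k + 2 + 1))) := by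
      rw [Finset.disjoint_left]
      intro x hx hx'
      have := (Finset.mem_Ioc.1 hx).2
      have := (Finset.mem_Ioc.1 hx').1
      omega
    rw [h1, Finset.sum_union h2, Finset.sum_range_succ]
    have h3 := sq_block hC (k + 2) (by omega)
    have h4 : ((2 : ℝ) ^ (-(1 / 10) : ℝ)) ^ (k + 2) ≤ ((2 : ℝ) ^ (-(1 / 10) : ℝ)) ^ k :=
      pow_le_pow_of_le_one hr0 hr1 (by omega)
    have h5 := mul_le_mul_of_nonneg_left h4 hC0.le
    rw [mul_add]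
    linarith

lemma sq_summable {D : Dat} (hD : Ok D) :
    Summable (fun n : ℕ => ‖D.a (n + 1)‖ ^ 2 * ((n : ℝ) + 1) ^ (-(11 / 10) : ℝ)) := by
  obtain ⟨C, hC0, hC⟩ := hD.shrt
  have hr0 : 0 ≤ (2 : ℝ) ^ (-(1 / 10) : ℝ) := by positivity
  have hr1 : (2 : ℝ) ^ (-(1 / 10) : ℝ) < 1 :=
    Real.rpow_lt_one_of_one_lt_of_neg (by norm_num) (by norm_num)
  refine summable_of_sum_range_le (c := ∑ n ∈ Finset.Ioc 0 4, ‖D.a n‖ ^ 2 *
    (n : ℝ) ^ (-(11 / 10) : ℝ) + C * (1 - (2 : ℝ) ^ (-(1 / 10) : ℝ))⁻¹)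
    (fun n => by positivity) (fun N => ?_)
  have h1 : ∑ n ∈ Finset.range N, ‖D.a (n + 1)‖ ^ 2 * ((n : ℝ) + 1) ^ (-(11 / 10) : ℝ) =
      ∑ n ∈ Finset.Ioc 0 N, ‖D.a n‖ ^ 2 * (n : ℝ) ^ (-(11 / 10) : ℝ) := by
    clear * -
    induction N with
    | zero => simp
    | succ N ih =>
      rw [Finset.sum_range_succ, ih]
      have : Finset.Ioc 0 (N + 1) = insert (N + 1) (Finset.Ioc 0 N) := by
        ext x
        simp only [Finset.mem_Ioc, Finset.mem_insert]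
        omega
      rw [this, Finset.sum_insert (by simp), add_comm]
      push_cast
      rfl
  rw [h1]
  have h2 : N ≤ 2 ^ (N + 2) := (Nat.lt_two_pow_self).le.trans
    (Nat.pow_le_pow_right (by norm_num) (by omega))
  refine (Finset.sum_le_sum_of_subset_of_nonneg
    (Finset.Ioc_subset_Ioc_right h2) (fun n _ _ => by positivity)).trans ?_
  refine (sq_partial hC0 hC N).trans ?_
  have h3 : ∑ j ∈ Finset.range N, ((2 : ℝ) ^ (-(1 / 10) : ℝ)) ^ j ≤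
      (1 - (2 : ℝ) ^ (-(1 / 10) : ℝ))⁻¹ := by
    rw [← tsum_geometric_of_lt_one hr0 hr1]
    exact (summable_geometric_of_lt_one hr0 hr1).sum_le_tsum _ (fun j _ => by positivity)
  have h4 := mul_le_mul_of_nonneg_left h3 hC0.le
  linarith

/-- the comparison series -/
noncomputable def zz (D : Dat) (n : ℕ) : ℝ := ‖D.a (n + 1)‖ * ((n : ℝ) + 1) ^ (-(11 / 10) : ℝ)

lemma zz_nonneg (D : Dat) (n : ℕ) : 0 ≤ zz D n := by
  unfold zz
  positivity

lemma zz_summable {D : Dat} (hD : Ok D) : Summable (zz D) := by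
  have h1 : Summable (fun n : ℕ => (n : ℝ) ^ (-(11 / 10) : ℝ)) :=
    Real.summable_nat_rpow.2 (by norm_num)
  have h2 := (summable_nat_add_iff 1).2 h1
  have h3 : Summable (fun n : ℕ => ((n : ℝ) + 1) ^ (-(11 / 10) : ℝ)) := by
    refine h2.congr fun n => ?_
    push_cast
    rfl
  refine Summable.of_nonneg_of_le (zz_nonneg D) (fun n => ?_) ((sq_summable hD).add h3)
  unfold zz
  have h4 : 0 ≤ ((n : ℝ) + 1) ^ (-(11 / 10) : ℝ) := by positivity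
  have h5 : ‖D.a (n + 1)‖ ≤ ‖D.a (n + 1)‖ ^ 2 + 1 := by nlinarith [sq_nonneg (‖D.a (n + 1)‖ - 1)]
  have h6 := mul_le_mul_of_nonneg_right h5 h4
  linarith

/-! ## the terms -/

/-- the size of a term without the coefficient -/
noncomputable def aa0 (κ lam : ℝ) (n : ℕ) : ℝ :=
  ((n : ℝ) + 1) ^ (-(1 / 2) : ℝ) * Real.exp (-(κ * (Real.log ((n : ℝ) + 1) - lam) ^ 2))

/-- the size of a term -/
noncomputable def aa (D : Dat) (κ lam : ℝ) (n : ℕ) : ℝ := ‖D.a (n + 1)‖ * aa0 κ lam n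

lemma aa_nonneg (D : Dat) (κ lam : ℝ) (n : ℕ) : 0 ≤ aa D κ lam n := by
  unfold aa aa0
  positivity

lemma gb {κ : ℝ} (hκ : 0 < κ) (c lam : ℝ) (n : ℕ) :
    aa0 κ lam n ≤ Real.exp (c ^ 2 / (4 * κ)) * Real.exp lam ^ c *
      ((n : ℝ) + 1) ^ (-(1 / 2) - c : ℝ) := by
  have hn : (0 : ℝ) < (n : ℝ) + 1 := by positivity
  unfold aa0
  have h1 : ((n : ℝ) + 1) ^ (-(1 / 2) - c : ℝ) = ((n : ℝ) + 1) ^ (-(1 / 2) : ℝ) *
      Real.exp (-(c * Real.log ((n : ℝ) + 1))) := by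
    rw [sub_eq_add_neg, Real.rpow_add hn]
    congr 1
    rw [Real.rpow_def_of_pos hn]
    congr 1
    ring
  have h2 : Real.exp lam ^ c = Real.exp (c * lam) := by
    rw [← Real.exp_mul, mul_comm]
  rw [h1, h2]
  have h3 : Real.exp (-(κ * (Real.log ((n : ℝ) + 1) - lam) ^ 2)) ≤
      Real.exp (c ^ 2 / (4 * κ)) * Real.exp (c * lam) *
        Real.exp (-(c * Real.log ((n : ℝ) + 1))) := by
    rw [← Real.exp_add, ← Real.exp_add]
    apply Real.exp_le_exp.2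
    have h4 : 0 ≤ κ * (Real.log ((n : ℝ) + 1) - lam - c / (2 * κ)) ^ 2 := by positivity
    have h5 : κ * (Real.log ((n : ℝ) + 1) - lam - c / (2 * κ)) ^ 2 =
        κ * (Real.log ((n : ℝ) + 1) - lam) ^ 2 - c * (Real.log ((n : ℝ) + 1) - lam) +
          c ^ 2 / (4 * κ) := by
      field_simp
      ring
    linarith
  have h4 : 0 ≤ ((n : ℝ) + 1) ^ (-(1 / 2) : ℝ) := by positivity
  calc _ ≤ ((n : ℝ) + 1) ^ (-(1 / 2) : ℝ) * (Real.exp (c ^ 2 / (4 * κ)) * Real.exp (c * lam) *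
        Real.exp (-(c * Real.log ((n : ℝ) + 1)))) := mul_le_mul_of_nonneg_left h3 h4
    _ = _ := by ring

/-- the term of `SS` -/
noncomputable def FF (D : Dat) (κ lam t : ℝ) (n : ℕ) : ℂ :=
  cexp (I * ((κ * Real.pi * (D.d : ℝ) / 2 * Real.log ((n : ℝ) + 1) : ℝ) : ℂ)) *
    (D.a (n + 1) * ((n : ℂ) + 1) ^ (-(1 / 2) - I * t)) *
    ((Real.exp (-(κ * (Real.log ((n : ℝ) + 1) - lam) ^ 2)) : ℝ) : ℂ)

lemma norm_cp (t : ℝ) (n : ℕ) : ‖((n : ℂ) + 1) ^ (-(1 / 2) - I * t)‖ =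
    ((n : ℝ) + 1) ^ (-(1 / 2) : ℝ) := by
  have h1 : ((n : ℂ) + 1) = (((n + 1 : ℕ)) : ℂ) := by push_cast; ring
  rw [h1, Complex.norm_natCast_cpow_of_pos (Nat.succ_pos n)]
  have h2 : (-(1 / 2) - I * t : ℂ).re = -(1 / 2) := by simp
  rw [h2]
  push_cast
  rfl

lemma norm_e (x : ℝ) : ‖cexp (I * (x : ℂ))‖ = 1 := by
  rw [mul_comm]
  exact Complex.norm_exp_ofReal_mul_I x

lemma norm_FF (D : Dat) (κ lam t : ℝ) (n : ℕ) : ‖FF D κ lam t n‖ = aa D κ lam n := by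
  unfold FF aa aa0
  rw [norm_mul, norm_mul, norm_mul, norm_cp, norm_e, one_mul, Complex.norm_real,
    Real.norm_eq_abs, abs_of_pos (Real.exp_pos _)]
  ring

lemma tm_eq (D : Dat) {κ : ℝ} (hκ : 0 < κ) (t θ : ℝ) (n : ℕ) :
    tm D κ t (θ : ℂ) (n + 1) =
      ((Real.exp (κ * (be D t).im ^ 2 + θ ^ 2 / (4 * κ)) : ℝ) : ℂ) *
      cexp (I * (((be D t).im * θ - 2 * κ * (be D t).im * (be D t).re : ℝ) : ℂ)) *
      (cexp (I * ((2 * κ * (be D t).im * Real.log ((n : ℝ) + 1) : ℝ) : ℂ)) *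
        (D.a (n + 1) * ((n : ℂ) + 1) ^ (-(1 / 2) - I * t)) *
        ((Real.exp (-(κ * (Real.log ((n : ℝ) + 1) - ((be D t).re - θ / (2 * κ))) ^ 2)) : ℝ) : ℂ)) := by
  unfold tm
  have h1 : (((n + 1 : ℕ)) : ℂ) = (n : ℂ) + 1 := by push_cast; ring
  have h2 : (((n + 1 : ℕ)) : ℝ) = (n : ℝ) + 1 := by push_cast; ring
  rw [h1, h2]
  set L : ℝ := Real.log ((n : ℝ) + 1) with hL
  set b : ℝ := (be D t).re with hb
  set b2 : ℝ := (be D t).im with hb2
  have hbe : be D t = (b : ℂ) + (b2 : ℂ) * I := (Complex.re_add_im (be D t)).symm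
  have h3 : cexp ((be D t - (L : ℂ)) * (θ : ℂ) - (κ : ℂ) * (be D t - (L : ℂ)) ^ 2) =
      ((Real.exp (κ * b2 ^ 2 + θ ^ 2 / (4 * κ)) : ℝ) : ℂ) *
      cexp (I * ((b2 * θ - 2 * κ * b2 * b : ℝ) : ℂ)) *
      (cexp (I * ((2 * κ * b2 * L : ℝ) : ℂ)) *
        ((Real.exp (-(κ * (L - (b - θ / (2 * κ))) ^ 2)) : ℝ) : ℂ)) := by
    rw [Complex.ofReal_exp, Complex.ofReal_exp, ← Complex.exp_add, ← Complex.exp_add,
      ← Complex.exp_add]
    congr 1
    rw [hbe]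
    have hκ' : (κ : ℂ) ≠ 0 := by exact_mod_cast hκ.ne'
    have hI : I ^ 2 = -1 := Complex.I_sq
    push_cast
    field_simp
    ring_nf
    rw [hI]
    ring
  rw [h3]
  ring

lemma e_sub (x y : ℝ) : ‖cexp (I * (x : ℂ)) - cexp (I * (y : ℂ))‖ ≤ |x - y| := by
  have h1 : cexp (I * (x : ℂ)) - cexp (I * (y : ℂ)) =
      cexp (I * (y : ℂ)) * (cexp (I * ((x - y : ℝ) : ℂ)) - 1) := by
    rw [mul_sub, ← Complex.exp_add, mul_one]
    congr 2
    push_cast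
    ring
  rw [h1, norm_mul, norm_e, one_mul]
  exact Real.norm_exp_I_mul_ofReal_sub_one_le

lemma icc_range {E : Type*} [AddCommMonoid E] (f : ℕ → E) (N : ℕ) :
    ∑ n ∈ Finset.Icc 1 N, f n = ∑ n ∈ Finset.range N, f (n + 1) := by
  induction N with
  | zero => simp
  | succ N ih => rw [Finset.sum_Icc_succ_top (by omega), ih, Finset.sum_range_succ]

lemma gb2 (D : Dat) {κ : ℝ} (hκ : 0 < κ) {c lam t : ℝ} (hc : 0 ≤ c) (ht : 0 < t)
    (hlam : Real.exp lam ≤ t ^ (1 / 2 : ℝ)) (n : ℕ) :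
    aa D κ lam n ≤ Real.exp (c ^ 2 / (4 * κ)) * t ^ (c / 2 : ℝ) *
      (‖D.a (n + 1)‖ * ((n : ℝ) + 1) ^ (-(1 / 2) - c : ℝ)) := by
  have h1 : Real.exp lam ^ c ≤ t ^ (c / 2 : ℝ) := by
    calc Real.exp lam ^ c ≤ (t ^ (1 / 2 : ℝ)) ^ c :=
          Real.rpow_le_rpow (Real.exp_pos _).le hlam hc
      _ = t ^ (c / 2 : ℝ) := by
          rw [← Real.rpow_mul ht.le]
          congr 1
          ring
  have h2 : 0 ≤ ((n : ℝ) + 1) ^ (-(1 / 2) - c : ℝ) := by positivity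
  have h3 := (gb hκ c lam n).trans (mul_le_mul_of_nonneg_right
    (mul_le_mul_of_nonneg_left h1 (Real.exp_pos (c ^ 2 / (4 * κ))).le) h2)
  have h4 := mul_le_mul_of_nonneg_left h3 (norm_nonneg (D.a (n + 1)))
  unfold aa
  linarith

theorem lows (D : Dat) (hD : Ok D) (h1 : S_STIR D) (h2 : S_LOC D) : S_LOWS D := by
  intro κ hκ
  obtain ⟨K, T1, hK, hT1, hst⟩ := h1
  set A0 : ℝ := (D.d : ℝ) / 2 + |Real.log D.Q| + 1 with hA0
  have hA00 : 0 < A0 := by positivity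
  obtain ⟨M, T2, hM, hT2, hloc⟩ := h2 κ hκ (max 1 (2 * κ * A0)) (le_max_left _ _)
  set Z : ℝ := ∑' n, zz D n with hZ
  have hZ0 : 0 ≤ Z := tsum_nonneg (zz_nonneg D)
  set C1 : ℝ := Real.exp ((3 / 5) ^ 2 / (4 * κ)) * Z with hC1
  set C2 : ℝ := 2 * κ * K * (10 * Real.exp ((7 / 10) ^ 2 / (4 * κ)) * Z) with hC2
  set C3 : ℝ := Real.exp (5 ^ 2 / (4 * κ)) * Z with hC3
  have hC10 : 0 ≤ C1 := by positivity
  have hC20 : 0 ≤ C2 := by positivity
  have hC30 : 0 ≤ C3 := by positivity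
  set Ct : ℝ := C1 + C2 + C3 + 1 with hCt
  have hCt0 : 0 ≤ Ct := by positivity
  refine ⟨max T1 (max T2 (max (max 3 (2 * K)) (Ct ^ (10 : ℕ)))), ?_, ?_⟩
  · exact hT2.trans ((le_max_left _ _).trans (le_max_right _ _))
  intro t ht θ hθ0 hθ1 hlamt
  have htT1 : T1 ≤ t := (le_max_left _ _).trans ht
  have htT2 : T2 ≤ t := ((le_max_left _ _).trans (le_max_right _ _)).trans ht
  have ht3K : max 3 (2 * K) ≤ t :=
    ((le_max_left _ _).trans ((le_max_right _ _).trans (le_max_right _ _))).trans ht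
  have htK : 2 * K ≤ t := (le_max_right _ _).trans ht3K
  have ht3 : 3 ≤ t := (le_max_left _ _).trans ht3K
  have htC : Ct ^ (10 : ℕ) ≤ t :=
    ((le_max_right _ _).trans ((le_max_right _ _).trans (le_max_right _ _))).trans ht
  have ht2 : 2 ≤ t := hT2.trans htT2
  have ht0 : 0 < t := by linarith
  have ht1 : 1 ≤ t := by linarith
  obtain ⟨hHH, hbe, -, -, -, -⟩ := hst t htT1
  set b : ℝ := (be D t).re with hb
  set b2 : ℝ := (be D t).im with hb2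
  have hre : |b - ((D.d : ℝ) * Real.log (t / (2 * Real.pi)) / 2 + Real.log D.Q)| ≤ K / t := by
    refine le_trans ?_ hbe
    have := Complex.abs_re_le_norm (be D t - (((D.d : ℝ) * Real.log (t / (2 * Real.pi)) / 2 +
      Real.log D.Q : ℝ) + I * ((D.d : ℝ) * Real.pi / 4 : ℝ)))
    have e : (be D t - (((D.d : ℝ) * Real.log (t / (2 * Real.pi)) / 2 +
      Real.log D.Q : ℝ) + I * ((D.d : ℝ) * Real.pi / 4 : ℝ))).re =
        b - ((D.d : ℝ) * Real.log (t / (2 * Real.pi)) / 2 + Real.log D.Q) := by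
      rw [Complex.sub_re, Complex.add_re, Complex.ofReal_re, Complex.mul_re, Complex.I_re,
        Complex.I_im, Complex.ofReal_im, Complex.ofReal_re, ← hb]
      ring
    rw [e] at this
    exact this
  have him : |b2 - (D.d : ℝ) * Real.pi / 4| ≤ K / t := by
    refine le_trans ?_ hbe
    have := Complex.abs_im_le_norm (be D t - (((D.d : ℝ) * Real.log (t / (2 * Real.pi)) / 2 +
      Real.log D.Q : ℝ) + I * ((D.d : ℝ) * Real.pi / 4 : ℝ)))
    have e : (be D t - (((D.d : ℝ) * Real.log (t / (2 * Real.pi)) / 2 +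
      Real.log D.Q : ℝ) + I * ((D.d : ℝ) * Real.pi / 4 : ℝ))).im =
        b2 - (D.d : ℝ) * Real.pi / 4 := by
      rw [Complex.sub_im, Complex.add_im, Complex.ofReal_im, Complex.mul_im, Complex.I_re,
        Complex.I_im, Complex.ofReal_im, Complex.ofReal_re, ← hb2]
      ring
    rw [e] at this
    exact this
  have hKt : K / t ≤ 1 / 2 := by
    rw [div_le_div_iff₀ ht0 (by norm_num)]
    linarith
  have hlogt : 1 ≤ Real.log t := by
    rw [Real.le_log_iff_exp_le ht0]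
    have := Real.exp_one_lt_d9
    linarith
  have hbl : b ≤ A0 * Real.log t := by
    have h3 := (abs_le.1 hre).2
    have h4 : Real.log (t / (2 * Real.pi)) ≤ Real.log t := by
      apply Real.log_le_log (by positivity)
      apply div_le_self ht0.le
      have := Real.pi_gt_three
      linarith
    have h5 : (D.d : ℝ) * Real.log (t / (2 * Real.pi)) ≤ (D.d : ℝ) * Real.log t :=
      mul_le_mul_of_nonneg_left h4 (Nat.cast_nonneg _)
    have h6 : Real.log D.Q ≤ |Real.log D.Q| := le_abs_self _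
    have h7 : |Real.log D.Q| * 1 ≤ |Real.log D.Q| * Real.log t :=
      mul_le_mul_of_nonneg_left hlogt (abs_nonneg _)
    rw [hA0]
    have e : ((D.d : ℝ) / 2 + |Real.log D.Q| + 1) * Real.log t =
      (D.d : ℝ) * Real.log t / 2 + |Real.log D.Q| * Real.log t + Real.log t := by ring
    rw [e]
    linarith
  set lam : ℝ := b - θ / (2 * κ) with hlam
  have hθκ : 0 ≤ θ / (2 * κ) := by positivity
  have hlam_le : Real.exp lam ≤ t ^ (1 / 2 : ℝ) := by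
    rw [Real.rpow_def_of_pos ht0]
    apply Real.exp_le_exp.2
    linarith
  have hθK : ‖(θ : ℂ)‖ ≤ max 1 (2 * κ * A0) * Real.log t := by
    rw [Complex.norm_real, Real.norm_eq_abs, abs_of_nonneg hθ0]
    calc θ ≤ 2 * κ * b := hθ1
      _ ≤ 2 * κ * (A0 * Real.log t) := mul_le_mul_of_nonneg_left hbl (by positivity)
      _ = 2 * κ * A0 * Real.log t := by ring
      _ ≤ _ := mul_le_mul_of_nonneg_right (le_max_right _ _) (by linarith)
  have hL := hloc t htT2 (θ : ℂ) hθK (by simpa using hθ0)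
  rw [icc_range, icc_range] at hL
  set N : ℕ := ⌊t ^ M⌋₊ with hN
  set E : ℝ := Real.exp (κ * b2 ^ 2 + θ ^ 2 / (4 * κ)) with hE
  have hE0 : 0 < E := Real.exp_pos _
  have hE1 : Real.exp (θ ^ 2 / (4 * κ)) ≤ E := Real.exp_le_exp.2 (by
    have : 0 ≤ κ * b2 ^ 2 := by positivity
    linarith)
  have hEone : 1 ≤ E := by
    refine le_trans ?_ hE1
    rw [← Real.exp_zero]
    exact Real.exp_le_exp.2 (by positivity)
  set W : ℂ := cexp (I * ((b2 * θ - 2 * κ * b2 * b : ℝ) : ℂ)) with hW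
  have hW1 : ‖W‖ = 1 := norm_e _
  -- the terms
  have htm : ∀ n : ℕ, tm D κ t (θ : ℂ) (n + 1) = (E : ℂ) * W *
      (cexp (I * ((2 * κ * b2 * Real.log ((n : ℝ) + 1) : ℝ) : ℂ)) *
        (D.a (n + 1) * ((n : ℂ) + 1) ^ (-(1 / 2) - I * t)) *
        ((Real.exp (-(κ * (Real.log ((n : ℝ) + 1) - lam) ^ 2)) : ℝ) : ℂ)) := fun n =>
    tm_eq D hκ t θ n
  have hntm : ∀ n : ℕ, ‖tm D κ t (θ : ℂ) (n + 1)‖ = E * aa D κ lam n := by
    intro n
    rw [htm, norm_mul, norm_mul, norm_mul, norm_mul, norm_mul, norm_cp, hW1, norm_e,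
      Complex.norm_real, Complex.norm_real, Real.norm_eq_abs, Real.norm_eq_abs, abs_of_pos hE0,
      abs_of_pos (Real.exp_pos _)]
    unfold aa aa0
    ring
  have hdiff : ∀ n : ℕ, ‖tm D κ t (θ : ℂ) (n + 1) - (E : ℂ) * W * FF D κ lam t n‖ ≤
      E * (aa D κ lam n * (2 * κ * (K / t) * Real.log ((n : ℝ) + 1))) := by
    intro n
    have e1 : tm D κ t (θ : ℂ) (n + 1) - (E : ℂ) * W * FF D κ lam t n = (E : ℂ) * W *
        ((cexp (I * ((2 * κ * b2 * Real.log ((n : ℝ) + 1) : ℝ) : ℂ)) -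
          cexp (I * ((κ * Real.pi * (D.d : ℝ) / 2 * Real.log ((n : ℝ) + 1) : ℝ) : ℂ))) *
        ((D.a (n + 1) * ((n : ℂ) + 1) ^ (-(1 / 2) - I * t)) *
        ((Real.exp (-(κ * (Real.log ((n : ℝ) + 1) - lam) ^ 2)) : ℝ) : ℂ))) := by
      rw [htm]
      unfold FF
      ring
    rw [e1, norm_mul, norm_mul, norm_mul, norm_mul, norm_mul, norm_cp, hW1, Complex.norm_real,
      Complex.norm_real, Real.norm_eq_abs, Real.norm_eq_abs, abs_of_pos hE0,
      abs_of_pos (Real.exp_pos _)]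
    have hLn : 0 ≤ Real.log ((n : ℝ) + 1) := Real.log_nonneg (by
      have : (0 : ℝ) ≤ n := Nat.cast_nonneg n
      linarith)
    have e2 := e_sub (2 * κ * b2 * Real.log ((n : ℝ) + 1))
      (κ * Real.pi * (D.d : ℝ) / 2 * Real.log ((n : ℝ) + 1))
    have e3 : |2 * κ * b2 * Real.log ((n : ℝ) + 1) -
        κ * Real.pi * (D.d : ℝ) / 2 * Real.log ((n : ℝ) + 1)| ≤
        2 * κ * (K / t) * Real.log ((n : ℝ) + 1) := by
      have e4 : 2 * κ * b2 * Real.log ((n : ℝ) + 1) -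
          κ * Real.pi * (D.d : ℝ) / 2 * Real.log ((n : ℝ) + 1) =
          (2 * κ * Real.log ((n : ℝ) + 1)) * (b2 - (D.d : ℝ) * Real.pi / 4) := by ring
      rw [e4, abs_mul, abs_of_nonneg (by positivity)]
      calc (2 * κ * Real.log ((n : ℝ) + 1)) * |b2 - (D.d : ℝ) * Real.pi / 4| ≤
            (2 * κ * Real.log ((n : ℝ) + 1)) * (K / t) :=
            mul_le_mul_of_nonneg_left him (by positivity)
        _ = _ := by ring
    have haa := aa_nonneg D κ lam n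
    have e5 : ‖D.a (n + 1)‖ * ((n : ℝ) + 1) ^ (-(1 / 2) : ℝ) *
        Real.exp (-(κ * (Real.log ((n : ℝ) + 1) - lam) ^ 2)) = aa D κ lam n := by
      unfold aa aa0
      ring
    rw [e5, mul_one]
    refine mul_le_mul_of_nonneg_left ?_ hE0.le
    rw [mul_comm]
    exact mul_le_mul_of_nonneg_left (e2.trans e3) haa
  -- bounds for the sums
  have hzsum : ∀ s : Finset ℕ, ∑ n ∈ s, zz D n ≤ Z := fun s =>
    (zz_summable hD).sum_le_tsum s fun n _ => zz_nonneg D n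
  have hS1 : ∑ n ∈ Finset.range N, aa D κ lam n ≤ C1 * t ^ (3 / 10 : ℝ) := by
    have e1 : ∀ n ∈ Finset.range N, aa D κ lam n ≤
        (Real.exp ((3 / 5) ^ 2 / (4 * κ)) * t ^ (3 / 10 : ℝ)) * zz D n := by
      intro n _
      have e2 := gb2 D hκ (c := 3 / 5) (by norm_num) ht0 hlam_le n
      have e3 : ((3 : ℝ) / 5 / 2) = 3 / 10 := by norm_num
      have e4 : (-(1 / 2) - 3 / 5 : ℝ) = -(11 / 10) := by norm_num
      rw [e3, e4] at e2
      exact e2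
    refine (Finset.sum_le_sum e1).trans ?_
    rw [← Finset.mul_sum]
    calc _ ≤ (Real.exp ((3 / 5) ^ 2 / (4 * κ)) * t ^ (3 / 10 : ℝ)) * Z :=
          mul_le_mul_of_nonneg_left (hzsum _) (by positivity)
      _ = _ := by rw [hC1]; ring
  have hS2 : ∑ n ∈ Finset.range N, aa D κ lam n * (2 * κ * (K / t) * Real.log ((n : ℝ) + 1)) ≤
      C2 * t ^ (7 / 20 : ℝ) / t := by
    have e1 : ∀ n ∈ Finset.range N, aa D κ lam n * (2 * κ * (K / t) * Real.log ((n : ℝ) + 1)) ≤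
        (2 * κ * K / t * (10 * Real.exp ((7 / 10) ^ 2 / (4 * κ)) * t ^ (7 / 20 : ℝ))) * zz D n := by
      intro n _
      have hn0 : (0 : ℝ) < (n : ℝ) + 1 := by positivity
      have e2 := gb2 D hκ (c := 7 / 10) (by norm_num) ht0 hlam_le n
      have e3 : ((7 : ℝ) / 10 / 2) = 7 / 20 := by norm_num
      have e4 : ‖D.a (n + 1)‖ * ((n : ℝ) + 1) ^ (-(1 / 2) - 7 / 10 : ℝ) =
          zz D n * ((n : ℝ) + 1) ^ (-(1 / 10) : ℝ) := by
        unfold zz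
        rw [mul_assoc, ← Real.rpow_add hn0]
        congr 2
        norm_num
      rw [e3, e4] at e2
      have e5 : Real.log ((n : ℝ) + 1) ≤ ((n : ℝ) + 1) ^ (1 / 10 : ℝ) / (1 / 10) :=
        Real.log_le_rpow_div hn0.le (by norm_num)
      have hLn : 0 ≤ Real.log ((n : ℝ) + 1) := Real.log_nonneg (by
        have : (0 : ℝ) ≤ n := Nat.cast_nonneg n
        linarith)
      have e6 : ((n : ℝ) + 1) ^ (-(1 / 10) : ℝ) * ((n : ℝ) + 1) ^ (1 / 10 : ℝ) = 1 := by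
        rw [← Real.rpow_add hn0]
        norm_num
      have hz := zz_nonneg D n
      have hp : 0 ≤ ((n : ℝ) + 1) ^ (-(1 / 10) : ℝ) := by positivity
      have e7 : aa D κ lam n * Real.log ((n : ℝ) + 1) ≤
          (Real.exp ((7 / 10) ^ 2 / (4 * κ)) * t ^ (7 / 20 : ℝ) *
            (zz D n * ((n : ℝ) + 1) ^ (-(1 / 10) : ℝ))) *
            (((n : ℝ) + 1) ^ (1 / 10 : ℝ) / (1 / 10)) :=
        mul_le_mul e2 e5 hLn (by positivity)
      have e8 : (Real.exp ((7 / 10) ^ 2 / (4 * κ)) * t ^ (7 / 20 : ℝ) *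
            (zz D n * ((n : ℝ) + 1) ^ (-(1 / 10) : ℝ))) *
            (((n : ℝ) + 1) ^ (1 / 10 : ℝ) / (1 / 10)) =
          10 * Real.exp ((7 / 10) ^ 2 / (4 * κ)) * t ^ (7 / 20 : ℝ) * zz D n := by
        calc _ = 10 * Real.exp ((7 / 10) ^ 2 / (4 * κ)) * t ^ (7 / 20 : ℝ) * zz D n *
              (((n : ℝ) + 1) ^ (-(1 / 10) : ℝ) * ((n : ℝ) + 1) ^ (1 / 10 : ℝ)) := by ring
          _ = _ := by rw [e6, mul_one]
      rw [e8] at e7
      have hk0 : 0 ≤ 2 * κ * (K / t) := by positivity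
      calc aa D κ lam n * (2 * κ * (K / t) * Real.log ((n : ℝ) + 1)) =
            2 * κ * (K / t) * (aa D κ lam n * Real.log ((n : ℝ) + 1)) := by ring
        _ ≤ 2 * κ * (K / t) * (10 * Real.exp ((7 / 10) ^ 2 / (4 * κ)) * t ^ (7 / 20 : ℝ) * zz D n) :=
            mul_le_mul_of_nonneg_left e7 hk0
        _ = _ := by ring
    refine (Finset.sum_le_sum e1).trans ?_
    rw [← Finset.mul_sum]
    calc _ ≤ (2 * κ * K / t * (10 * Real.exp ((7 / 10) ^ 2 / (4 * κ)) * t ^ (7 / 20 : ℝ))) * Z :=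
          mul_le_mul_of_nonneg_left (hzsum _) (by positivity)
      _ = _ := by rw [hC2]; ring
  -- the tail
  have hsumaa : Summable (fun n => ‖FF D κ lam t n‖) := by
    refine Summable.of_nonneg_of_le (fun n => norm_nonneg _) (fun n => ?_)
      ((zz_summable hD).mul_left (Real.exp ((3 / 5) ^ 2 / (4 * κ)) * t ^ (3 / 10 : ℝ)))
    rw [norm_FF]
    have e2 := gb2 D hκ (c := 3 / 5) (by norm_num) ht0 hlam_le n
    have e3 : ((3 : ℝ) / 5 / 2) = 3 / 10 := by norm_num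
    have e4 : (-(1 / 2) - 3 / 5 : ℝ) = -(11 / 10) := by norm_num
    rw [e3, e4] at e2
    exact e2
  have hFs : Summable (FF D κ lam t) := hsumaa.of_norm
  have hSS : SS D κ lam t = ∑ n ∈ Finset.range N, FF D κ lam t n + ∑' n, FF D κ lam t (n + N) :=
    (hFs.sum_add_tsum_nat_add N).symm
  have htail : ‖∑' n, FF D κ lam t (n + N)‖ ≤ C3 * t ^ (-(19 / 10) : ℝ) := by
    have hsN : Summable (fun n => ‖FF D κ lam t (n + N)‖) := (summable_nat_add_iff N).2 hsumaa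
    refine (norm_tsum_le_tsum_norm hsN).trans ?_
    have e1 : ∀ n, ‖FF D κ lam t (n + N)‖ ≤
        (Real.exp (5 ^ 2 / (4 * κ)) * t ^ (-(19 / 10) : ℝ)) * zz D (n + N) := by
      intro n
      rw [norm_FF]
      have e2 := gb2 D hκ (c := 5) (by norm_num) ht0 hlam_le (n + N)
      have hn0 : (0 : ℝ) < ((n + N : ℕ) : ℝ) + 1 := by positivity
      have hNt : t ≤ ((n + N : ℕ) : ℝ) + 1 := by
        have e3 : t ^ M < (N : ℝ) + 1 := by
          rw [hN]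
          exact Nat.lt_floor_add_one _
        have e4 : t ≤ t ^ M := by
          calc t = t ^ (1 : ℝ) := (Real.rpow_one t).symm
            _ ≤ t ^ M := Real.rpow_le_rpow_of_exponent_le ht1 hM
        push_cast
        have : (0 : ℝ) ≤ n := Nat.cast_nonneg n
        linarith
      have e5 : ‖D.a (n + N + 1)‖ * (((n + N : ℕ) : ℝ) + 1) ^ (-(1 / 2) - 5 : ℝ) ≤
          t ^ (-(22 / 5) : ℝ) * zz D (n + N) := by
        have e6 : (-(1 / 2) - 5 : ℝ) = -(22 / 5) + -(11 / 10) := by norm_num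
        rw [e6, Real.rpow_add hn0]
        have e7 := Real.rpow_le_rpow_of_nonpos ht0 hNt (by norm_num : (-(22 / 5) : ℝ) ≤ 0)
        have e8 := mul_le_mul_of_nonneg_right e7 (zz_nonneg D (n + N))
        unfold zz at e8 ⊢
        linarith
      have e7 : t ^ (5 / 2 : ℝ) * t ^ (-(22 / 5) : ℝ) = t ^ (-(19 / 10) : ℝ) := by
        rw [← Real.rpow_add ht0]
        congr 1
        norm_num
      calc aa D κ lam (n + N) ≤ _ := e2
        _ ≤ Real.exp (5 ^ 2 / (4 * κ)) * t ^ (5 / 2 : ℝ) * (t ^ (-(22 / 5) : ℝ) * zz D (n + N)) :=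
            mul_le_mul_of_nonneg_left e5 (by positivity)
        _ = Real.exp (5 ^ 2 / (4 * κ)) * (t ^ (5 / 2 : ℝ) * t ^ (-(22 / 5) : ℝ)) * zz D (n + N) := by
            ring
        _ = _ := by rw [e7]
    have hzN : Summable (fun n => zz D (n + N)) := (summable_nat_add_iff N).2 (zz_summable hD)
    have hzN2 : ∑' n, zz D (n + N) ≤ Z := by
      have := (zz_summable hD).sum_add_tsum_nat_add N
      have h3 : 0 ≤ ∑ n ∈ Finset.range N, zz D n := Finset.sum_nonneg fun n _ => zz_nonneg D n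
      rw [hZ]
      linarith
    calc ∑' n, ‖FF D κ lam t (n + N)‖ ≤
        ∑' n, (Real.exp (5 ^ 2 / (4 * κ)) * t ^ (-(19 / 10) : ℝ)) * zz D (n + N) :=
          hsN.tsum_le_tsum e1 (hzN.mul_left _)
      _ = (Real.exp (5 ^ 2 / (4 * κ)) * t ^ (-(19 / 10) : ℝ)) * ∑' n, zz D (n + N) := tsum_mul_left
      _ ≤ (Real.exp (5 ^ 2 / (4 * κ)) * t ^ (-(19 / 10) : ℝ)) * Z :=
          mul_le_mul_of_nonneg_left hzN2 (by positivity)
      _ = _ := by rw [hC3]; ring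
  -- the main estimate
  have hG : E * (‖SS D κ lam t‖ - C3 * t ^ (-(19 / 10) : ℝ)) - E * (C2 * t ^ (7 / 20 : ℝ) / t) ≤
      ‖∑ n ∈ Finset.range N, tm D κ t (θ : ℂ) (n + 1)‖ := by
    have e1 : ‖∑ n ∈ Finset.range N, (tm D κ t (θ : ℂ) (n + 1) - (E : ℂ) * W * FF D κ lam t n)‖ ≤
        E * (C2 * t ^ (7 / 20 : ℝ) / t) := by
      refine (norm_sum_le _ _).trans ((Finset.sum_le_sum fun n _ => hdiff n).trans ?_)
      rw [← Finset.mul_sum]
      exact mul_le_mul_of_nonneg_left hS2 hE0.le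
    rw [Finset.sum_sub_distrib, ← Finset.mul_sum] at e1
    have e2 : ‖(E : ℂ) * W * ∑ n ∈ Finset.range N, FF D κ lam t n‖ =
        E * ‖∑ n ∈ Finset.range N, FF D κ lam t n‖ := by
      rw [norm_mul, norm_mul, hW1, mul_one, Complex.norm_real, Real.norm_eq_abs, abs_of_pos hE0]
    have e3 : ‖SS D κ lam t‖ - C3 * t ^ (-(19 / 10) : ℝ) ≤
        ‖∑ n ∈ Finset.range N, FF D κ lam t n‖ := by
      have e4 := norm_add_le (∑ n ∈ Finset.range N, FF D κ lam t n) (∑' n, FF D κ lam t (n + N))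
      rw [← hSS] at e4
      linarith
    have e5 := mul_le_mul_of_nonneg_left e3 hE0.le
    have e6 := norm_sub_norm_le ((E : ℂ) * W * ∑ n ∈ Finset.range N, FF D κ lam t n)
      (∑ n ∈ Finset.range N, tm D κ t (θ : ℂ) (n + 1))
    rw [e2, norm_sub_rev] at e6
    linarith
  have hsumn : ∑ n ∈ Finset.range N, ‖tm D κ t (θ : ℂ) (n + 1)‖ ≤ E * (C1 * t ^ (3 / 10 : ℝ)) := by
    simp_rw [hntm]
    rw [← Finset.mul_sum]
    exact mul_le_mul_of_nonneg_left hS1 hE0.le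
  -- all errors
  have hpow : ∀ x : ℝ, x ≤ -(3 / 5) → t ^ x ≤ t ^ (-(3 / 5) : ℝ) := fun x hx =>
    Real.rpow_le_rpow_of_exponent_le ht1 hx
  have herr : C3 * t ^ (-(19 / 10) : ℝ) + C2 * t ^ (7 / 20 : ℝ) / t +
      t ^ (-(9 / 10) : ℝ) * (C1 * t ^ (3 / 10 : ℝ)) + t ^ (-10 : ℝ) ≤ t ^ (-(1 / 2) : ℝ) := by
    have e1 : C3 * t ^ (-(19 / 10) : ℝ) ≤ C3 * t ^ (-(3 / 5) : ℝ) :=
      mul_le_mul_of_nonneg_left (hpow _ (by norm_num)) hC30
    have e2 : C2 * t ^ (7 / 20 : ℝ) / t ≤ C2 * t ^ (-(3 / 5) : ℝ) := by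
      have : C2 * t ^ (7 / 20 : ℝ) / t = C2 * t ^ (-(13 / 20) : ℝ) := by
        rw [mul_div_assoc]
        congr 1
        rw [div_eq_mul_inv, ← Real.rpow_neg_one t, ← Real.rpow_add ht0]
        congr 1
        norm_num
      rw [this]
      exact mul_le_mul_of_nonneg_left (hpow _ (by norm_num)) hC20
    have e3 : t ^ (-(9 / 10) : ℝ) * (C1 * t ^ (3 / 10 : ℝ)) = C1 * t ^ (-(3 / 5) : ℝ) := by
      rw [mul_left_comm, ← Real.rpow_add ht0]
      congr 2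
      norm_num
    have e4 : t ^ (-10 : ℝ) ≤ t ^ (-(3 / 5) : ℝ) := hpow _ (by norm_num)
    have e5 : Ct * t ^ (-(3 / 5) : ℝ) ≤ t ^ (-(1 / 2) : ℝ) := by
      have e6 : Ct ≤ t ^ (1 / 10 : ℝ) := by
        have e7 : (Ct ^ (10 : ℕ)) ^ (1 / 10 : ℝ) ≤ t ^ (1 / 10 : ℝ) :=
          Real.rpow_le_rpow (by positivity) htC (by norm_num)
        have e8 : (Ct ^ (10 : ℕ)) ^ (1 / 10 : ℝ) = Ct := by
          rw [← Real.rpow_natCast, ← Real.rpow_mul hCt0]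
          norm_num
        rwa [e8] at e7
      calc Ct * t ^ (-(3 / 5) : ℝ) ≤ t ^ (1 / 10 : ℝ) * t ^ (-(3 / 5) : ℝ) :=
            mul_le_mul_of_nonneg_right e6 (by positivity)
        _ = t ^ (-(1 / 2) : ℝ) := by
            rw [← Real.rpow_add ht0]
            congr 1
            norm_num
    rw [e3]
    calc _ ≤ Ct * t ^ (-(3 / 5) : ℝ) := by
          rw [hCt]
          linarith
      _ ≤ _ := e5
  have hX : ‖HH D (I * t)‖ * (E * (‖SS D κ lam t‖ - t ^ (-(1 / 2) : ℝ))) ≤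
      ‖XK D κ (I * t + (θ : ℂ))‖ := by
    have hH0 : 0 ≤ ‖HH D (I * t)‖ := norm_nonneg _
    have e1 := norm_sub_norm_le (HH D (I * t) * ∑ n ∈ Finset.range N, tm D κ t (θ : ℂ) (n + 1))
      (XK D κ (I * t + (θ : ℂ)))
    rw [norm_sub_rev, norm_mul] at e1
    have e2 : ‖HH D (I * t)‖ * (t ^ (-(9 / 10) : ℝ) *
        ∑ n ∈ Finset.range N, ‖tm D κ t (θ : ℂ) (n + 1)‖ + t ^ (-10 : ℝ)) ≤
        ‖HH D (I * t)‖ * (E * (t ^ (-(9 / 10) : ℝ) * (C1 * t ^ (3 / 10 : ℝ)) + t ^ (-10 : ℝ))) := by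
      refine mul_le_mul_of_nonneg_left ?_ hH0
      have e3 := mul_le_mul_of_nonneg_left hsumn (by positivity : 0 ≤ t ^ (-(9 / 10) : ℝ))
      have e4 : t ^ (-10 : ℝ) ≤ E * t ^ (-10 : ℝ) :=
        le_mul_of_one_le_left (by positivity) hEone
      calc _ ≤ t ^ (-(9 / 10) : ℝ) * (E * (C1 * t ^ (3 / 10 : ℝ))) + E * t ^ (-10 : ℝ) :=
            add_le_add e3 e4
        _ = _ := by ring
    have e5 := mul_le_mul_of_nonneg_left hG hH0
    have e6 : ‖HH D (I * t)‖ * (E * (‖SS D κ lam t‖ - t ^ (-(1 / 2) : ℝ))) ≤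
        ‖HH D (I * t)‖ * (E * (‖SS D κ lam t‖ - C3 * t ^ (-(19 / 10) : ℝ)) -
          E * (C2 * t ^ (7 / 20 : ℝ) / t)) -
        ‖HH D (I * t)‖ * (E * (t ^ (-(9 / 10) : ℝ) * (C1 * t ^ (3 / 10 : ℝ)) + t ^ (-10 : ℝ))) := by
      have e7 := mul_le_mul_of_nonneg_left herr hE0.le
      have e8 := mul_le_mul_of_nonneg_left e7 hH0
      linarith
    linarith [hL]
  by_cases hpos : 0 ≤ ‖SS D κ lam t‖ - t ^ (-(1 / 2) : ℝ)
  · refine le_trans ?_ hX
    rw [mul_assoc]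
    refine mul_le_mul_of_nonneg_left ?_ (norm_nonneg _)
    exact mul_le_mul_of_nonneg_right hE1 hpos
  · push Not at hpos
    refine le_trans ?_ (norm_nonneg _)
    exact mul_nonpos_of_nonneg_of_nonpos (by positivity) hpos.le

end Pool.Agent.W334.BG
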